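import Mathlib

set_option autoImplicit false

namespace Pool.Agent.Results.MP_a217de_gt.Poly

open Set Topology Filter Metric

/-- p is pseudo-unstable in M: C_a-unstable for some nondegenerate continuum C and a in C. -/
def PseudoUnstable {M : Type} [TopologicalSpace M] (p : M) : Prop :=
  ∃ (C : Type) (_ : MetricSpace C) (_ : CompactSpace C) (_ : ConnectedSpace C) (_ : Nontrivial C)
    (a : C) (F : M × C → M), Continuous F ∧ (∀ z, F (z, a) = z) ∧ ∀ z c, c ≠ a → F (z, c) ≠ p

/-- Geometric realisation, in barycentric coordinates, of a family K of vertex sets. -/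
def Real' {n : ℕ} (K : Set (Set (Fin n))) : Set (Fin n → ℝ) :=
  {x | (∀ i, 0 ≤ x i) ∧ ∑ i, x i = 1 ∧ Function.support x ∈ K}

/-- A space homeomorphic to the realisation of a finite simplicial complex. -/
def IsPolyhedron (Y : Type) [TopologicalSpace Y] : Prop :=
  ∃ (n : ℕ) (K : Set (Set (Fin n))), (∀ s ∈ K, ∀ t ⊆ s, t.Nonempty → t ∈ K) ∧
    Nonempty (Y ≃ₜ Real' K)

theorem bump {C : Type} [MetricSpace C] [CompactSpace C] [ConnectedSpace C] [Nontrivial C] (a : C)
    (W : Set C) (hW : W ∈ 𝓝 a) : ∃ S ⊆ W, a ∈ S ∧ IsCompact S ∧ IsConnected S ∧ S.Nontrivial := by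
  obtain ⟨b, hb⟩ := exists_ne a
  obtain ⟨δ, hδ, h⟩ := nhds_basis_closedBall.mem_iff.1 (inter_mem hW (isOpen_ne.mem_nhds hb.symm))
  have ha := mem_closedBall_self (x := a) hδ.le
  haveI : CompactSpace (closedBall a δ) := isCompact_iff_compactSpace.1 isClosed_closedBall.isCompact
  refine ⟨Subtype.val '' connectedComponent (⟨a, ha⟩ : closedBall a δ), ?_,
    ⟨_, mem_connectedComponent, rfl⟩, isClosed_connectedComponent.isCompact.image continuous_subtype_val,
    isConnected_connectedComponent.image _ continuous_subtype_val.continuousOn, ?_⟩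
  · rintro _ ⟨z, -, rfl⟩; exact (h z.2).1
  by_contra hh
  rw [not_nontrivial_iff] at hh
  have h1 : connectedComponent (⟨a, ha⟩ : closedBall a δ) ⊆ Subtype.val ⁻¹' ball a δ := fun z hz => by
    rw [mem_preimage, hh ⟨z, hz, rfl⟩ ⟨_, mem_connectedComponent, rfl⟩]; exact mem_ball_self hδ
  rw [connectedComponent_eq_iInter_isClopen] at h1
  haveI : Nonempty {s : Set (closedBall a δ) // IsClopen s ∧ ⟨a, ha⟩ ∈ s} :=
    ⟨⟨univ, isClopen_univ, trivial⟩⟩
  obtain ⟨s, hs⟩ := exists_subset_nhds_of_compactSpace (V := fun s : {s : Set (closedBall a δ) //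
      IsClopen s ∧ ⟨a, ha⟩ ∈ s} => s.1) (fun s t => ⟨⟨s.1 ∩ t.1, s.2.1.inter t.2.1, s.2.2, t.2.2⟩,
        inter_subset_left, inter_subset_right⟩) (fun s => s.2.1.1)
    fun x hx => (isOpen_ball.preimage continuous_subtype_val).mem_nhds (h1 hx)
  obtain ⟨O, hO, hO'⟩ := isOpen_induced_iff.1 s.2.1.2
  have e : Subtype.val '' s.1 = O ∩ ball a δ := by
    apply Subset.antisymm
    · rintro _ ⟨z, hz, rfl⟩; exact ⟨by rw [← hO'] at hz; exact hz, hs hz⟩
    · exact fun z hz => ⟨⟨z, ball_subset_closedBall hz.2⟩, by rw [← hO']; exact hz.1, rfl⟩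
  have : Subtype.val '' s.1 = univ := IsClopen.eq_univ
    ⟨(s.2.1.1.isCompact.image continuous_subtype_val).isClosed, e ▸ hO.inter isOpen_ball⟩
    ⟨_, _, s.2.2, rfl⟩
  obtain ⟨z, -, hz⟩ : b ∈ Subtype.val '' s.1 := this ▸ mem_univ b
  exact (h z.2).2 hz

variable {n : ℕ}

noncomputable def mid (u w : Fin n → ℝ) : Fin n → ℝ := (∑ i, min (u i) (w i))⁻¹ • (u ⊓ w)

noncomputable def lam (u w : Fin n → ℝ) (t : ℝ) : Fin n → ℝ :=
  max 0 (1 - 2 * t) • u + (1 - |2 * t - 1|) • mid u w + max 0 (2 * t - 1) • w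

theorem lam_cases (u w : Fin n → ℝ) {t : ℝ} (h0 : 0 ≤ t) (h1 : t ≤ 1) :
    lam u w t ∈ segment ℝ u (mid u w) ∨ lam u w t ∈ segment ℝ w (mid u w) := by
  rcases le_total t (1 / 2) with h | h
  · refine Or.inl ⟨1 - 2 * t, 2 * t, by linarith, by linarith, by ring, ?_⟩
    rw [lam, max_eq_right (by linarith), max_eq_left (by linarith), abs_of_nonpos (by linarith)]
    module
  · refine Or.inr ⟨2 * t - 1, 2 - 2 * t, by linarith, by linarith, by ring, ?_⟩
    rw [lam, max_eq_left (by linarith), max_eq_right (by linarith), abs_of_nonneg (by linarith)]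
    module

theorem seg_mem {K : Set (Set (Fin n))} (hK : ∀ s ∈ K, ∀ t ⊆ s, t.Nonempty → t ∈ K) {u w v : Fin n → ℝ}
    (hu : u ∈ Real' K) (hw : w ∈ Real' K) (h : 0 < ∑ i, min (u i) (w i))
    (hv : v ∈ segment ℝ u (mid u w)) : v ∈ Real' K := by
  obtain ⟨a, b, ha, hb, hab, rfl⟩ := hv
  have m0 : ∀ i, 0 ≤ min (u i) (w i) := fun i => le_min (hu.1 i) (hw.1 i)
  have e : ∑ i, (a • u + b • mid u w) i = 1 := by
    simp only [mid, Pi.add_apply, Pi.smul_apply, smul_eq_mul, Finset.sum_add_distrib,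
      ← Finset.mul_sum, hu.2.1, Pi.inf_apply]
    rw [inv_mul_cancel₀ h.ne']; linarith
  refine ⟨fun i => add_nonneg (mul_nonneg ha (hu.1 i))
    (mul_nonneg hb (mul_nonneg (inv_nonneg.2 h.le) (m0 i))), e, hK _ hu.2.2 _ (fun i hi h0 => hi ?_) ?_⟩
  · simp [mid, h0, hw.1 i]
  · rw [Function.support_nonempty_iff]
    rintro h0
    rw [h0] at e
    simp at e

theorem core {X : Type} [TopologicalSpace X] {K : Set (Set (Fin n))}
    (hK : ∀ s ∈ K, ∀ t ⊆ s, t.Nonempty → t ∈ K) (x : X) (y : Real' K) (k : Real' K → X)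
    (k' : X → Real' K) (U : Set X) (hU : IsOpen U) (V : Set (Real' K)) (hV : V ∈ 𝓝 y)
    (h1 : ∀ z ∈ V, ContinuousAt k z ∧ k z ∈ U ∧ k' (k z) = z)
    (h2 : ∀ w ∈ U, ContinuousAt k' w ∧ (k' w = y → w = x)) (hx : PseudoUnstable x) :
    PseudoUnstable y := by
  classical
  obtain ⟨C, _, _, _, _, a, F, F1, F2, F3⟩ := hx
  haveI : CompactSpace (Real' K) := by
    refine isCompact_iff_compactSpace.1 ?_
    have : Real' K = ⋃ s ∈ K, stdSimplex ℝ (Fin n) ∩ ⋂ i ∈ sᶜ, {x | x i = 0} := by
      ext x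
      simp only [mem_iUnion, mem_inter_iff, mem_iInter, mem_ofPred_eq]
      refine ⟨fun h => ⟨_, h.2.2, ⟨h.1, h.2.1⟩, fun i hi => not_not.1 hi⟩, fun ⟨s, hs, h, h'⟩ =>
        ⟨h.1, h.2, hK s hs _ (fun i hi => not_not.1 fun hi' => hi (h' i hi')) ?_⟩⟩
      rw [Function.support_nonempty_iff]
      rintro rfl
      simpa using h.2
    rw [this]
    exact (toFinite K).isCompact_biUnion fun s _ => (isCompact_stdSimplex ℝ _).inter_right
      (isClosed_biInter fun i _ => isClosed_eq (continuous_apply i) continuous_const)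
  obtain ⟨R, hR, hB⟩ := nhds_basis_closedBall.mem_iff.1 hV
  let Φ : Real' K × C → (Fin n → ℝ) := fun q => k' (F (k q.1, q.2))
  let S : Real' K × C → ℝ := fun q => ∑ i, min (q.1.1 i) (Φ q i)
  have c0 : ∀ q : Real' K × C, q.1 ∈ V → ContinuousAt (fun q : Real' K × C => F (k q.1, q.2)) q :=
    fun q hq => F1.continuousAt.comp (((h1 _ hq).1.comp continuousAt_fst).prodMk continuousAt_snd)
  have c1 : ∀ q : Real' K × C, q.1 ∈ V → F (k q.1, q.2) ∈ U → ContinuousAt Φ q := fun q hq h =>
    continuous_subtype_val.continuousAt.comp (ContinuousAt.comp (h2 _ h).1 (c0 q hq))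
  have cv : ∀ q : Real' K × C, ContinuousAt (fun q : Real' K × C => q.1.1) q := fun q => by fun_prop
  have cm : ∀ q i, ContinuousAt Φ q → ContinuousAt (fun q => min (q.1.1 i) (Φ q i)) q := fun q i h =>
    Tendsto.min (continuousAt_pi.1 (cv q) i) (continuousAt_pi.1 h i)
  have c2 : ∀ q, ContinuousAt Φ q → ContinuousAt S q := fun q h =>
    tendsto_finset_sum _ fun i _ => cm q i h
  have c3 : ∀ q, ContinuousAt Φ q → 0 < S q → ContinuousAt (fun q => mid q.1.1 (Φ q)) q :=
    fun q h h' => ((c2 q h).inv₀ h'.ne').smul (continuousAt_pi.2 fun i => cm q i h)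
  have e1 : ∀ z ∈ V, Φ (z, a) = z := fun z hz => by simp only [Φ, F2, (h1 z hz).2.2]
  have e2 : ∀ z : Real' K, mid z.1 z = z := fun z => by simp [mid, z.2.2.1]
  have hW : ∀ᶠ c in 𝓝 a, ∀ z ∈ closedBall y R, F (k z, c) ∈ U ∧ 0 < S (z, c) ∧
      Φ (z, c) ∈ ball z.1 (R / 2) ∧ mid z.1 (Φ (z, c)) ∈ ball z.1 (R / 2) := by
    refine isClosed_closedBall.isCompact.eventually_forall_of_forall_eventually fun z hz => ?_
    have a0 : F (k z, a) ∈ U := by rw [F2]; exact (h1 z (hB hz)).2.1
    have a1 := c1 (z, a) (hB hz) a0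
    have a2 : 0 < S (z, a) := by simp [S, e1 z (hB hz), z.2.2.1]
    refine (continuous_swap.tendsto (a, z)).eventually (p := fun q : Real' K × C => F (k q.1, q.2) ∈ U ∧
      0 < S q ∧ Φ q ∈ ball q.1.1 (R / 2) ∧ mid q.1.1 (Φ q) ∈ ball q.1.1 (R / 2)) ?_
    refine ((c0 (z, a) (hB hz)).eventually (hU.mem_nhds a0)).and
      ((continuousAt_const.eventually_lt (c2 _ a1) a2).and (Eventually.and ?_ ?_))
    · exact ContinuousAt.eventually_lt (a1.dist (cv _)) continuousAt_const (by simp [e1 z (hB hz), hR])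
    · exact ContinuousAt.eventually_lt ((c3 _ a1 a2).dist (cv _)) continuousAt_const
        (by simp [e1 z (hB hz), e2, hR])
  obtain ⟨T, T1, T2, T3, T4, T5⟩ := bump a _ hW
  let τ : Real' K → ℝ := fun z => min 1 (2 - 2 * dist z y / R)
  have τ0 : ∀ z, dist z y ≤ R → 0 ≤ τ z := fun z h =>
    le_min zero_le_one (by rw [sub_nonneg, div_le_iff₀ hR]; linarith)
  let G : Real' K × T → (Fin n → ℝ) := fun q =>
    if dist q.1 y ≤ R then lam q.1 (Φ (q.1, q.2)) (τ q.1) else q.1
  have G1 : ∀ q, G q ∈ Real' K := fun q => by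
    simp only [G]
    split_ifs with h
    · have a1 := (T1 q.2.2 q.1 h).2.1
      rcases lam_cases q.1.1 (Φ (q.1, q.2)) (τ0 _ h) (min_le_left _ _) with h' | h'
      · exact seg_mem hK q.1.2 (Subtype.coe_prop _) a1 h'
      · refine seg_mem (u := Φ (q.1, q.2)) hK (Subtype.coe_prop _) q.1.2 (by simpa only [S, min_comm] using a1) ?_
        simpa only [mid, min_comm, inf_comm] using h'
    · exact q.1.2
  refine ⟨T, inferInstance, isCompact_iff_compactSpace.1 T3, isConnected_iff_connectedSpace.1 T4,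
    T5.coe_sort, ⟨a, T2⟩, fun q => ⟨G q, G1 q⟩, Continuous.subtype_mk ?_ _, fun z => Subtype.ext ?_,
    fun z c hc h => ?_⟩
  · refine continuous_if_le (by fun_prop) continuous_const (fun q hq => ?_) (by fun_prop) fun q hq => ?_
    · obtain ⟨a1, a2, -⟩ := T1 q.2.2 q.1 hq
      have b0 : ContinuousAt (fun q : Real' K × T => (q.1, q.2.1)) q := by fun_prop
      have b1 := ContinuousAt.comp (f := fun q : Real' K × T => (q.1, q.2.1)) (c1 _ (hB hq) a1) b0
      have b2 := ContinuousAt.comp (f := fun q : Real' K × T => (q.1, q.2.1))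
        (c3 _ (c1 _ (hB hq) a1) a2) b0
      have t1 : Continuous fun q : Real' K × T => max 0 (1 - 2 * τ q.1) := by fun_prop
      have t2 : Continuous fun q : Real' K × T => 1 - |2 * τ q.1 - 1| := by fun_prop
      have t3 : Continuous fun q : Real' K × T => max 0 (2 * τ q.1 - 1) := by fun_prop
      have t4 : Continuous fun q : Real' K × T => q.1.1 := by fun_prop
      exact (((t1.continuousAt.smul t4.continuousAt).add
        (t2.continuousAt.smul b2)).add (t3.continuousAt.smul b1)).continuousWithinAt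
    · simp [lam, τ, hq, hR.ne']
  · simp only [G]
    split_ifs with h
    · rcases lam_cases z.1 (Φ (z, a)) (τ0 _ h) (min_le_left _ _) with h' | h' <;>
        simpa [e1 z (hB h), e2] using h'
    · rfl
  · have h3 : G (z, c) = y := congrArg Subtype.val h
    simp only [G] at h3
    split_ifs at h3 with h4
    · obtain ⟨a1, -, a3, a4⟩ := T1 c.2 z h4
      by_cases h5 : dist z y ≤ R / 2
      · have : τ z = 1 := min_eq_left (by rw [le_sub_comm, div_le_iff₀ hR]; linarith)
        rw [this, lam] at h3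
        norm_num at h3
        exact F3 _ _ (fun e => hc (Subtype.ext e)) ((h2 _ a1).2 (Subtype.ext h3))
      · have : y.1 ∈ ball z.1 (R / 2) := by
          rw [← h3]
          rcases lam_cases z.1 (Φ (z, c)) (τ0 _ h4) (min_le_left _ _) with h' | h'
          · exact (convex_ball _ _).segment_subset (mem_ball_self (half_pos hR)) a4 h'
          · exact (convex_ball _ _).segment_subset a3 a4 h'
        exact h5 (mem_ball'.1 this).le
    · exact h4 (by rw [Subtype.ext h3, dist_self]; exact hR.le)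

theorem result (X Y : Type) [TopologicalSpace X] [TopologicalSpace Y] (hY : IsPolyhedron Y)
    (x : X) (y : Y) (U : Set X) (V : Set Y) (hU : U ∈ 𝓝 x) (hV : V ∈ 𝓝 y) (h : U ≃ₜ V)
    (hxy : (h ⟨x, mem_of_mem_nhds hU⟩ : Y) = y) (hx : PseudoUnstable x) : PseudoUnstable y := by
  classical
  obtain ⟨n, K, hK, ⟨e⟩⟩ := hY
  let k : Y → X := fun z => if hz : z ∈ V then h.symm ⟨z, hz⟩ else x
  let k' : X → Y := fun w => if hw : w ∈ U then h ⟨w, hw⟩ else y
  have k1 : ContinuousOn k V := by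
    rw [continuousOn_iff_continuous_restrict]
    exact (continuous_subtype_val.comp h.symm.continuous).congr fun z => by simp [k]
  have k2 : ContinuousOn k' U := by
    rw [continuousOn_iff_continuous_restrict]
    exact (continuous_subtype_val.comp h.continuous).congr fun z => by simp [k']
  have k3 : k y = x := by
    simp only [k, dif_pos (mem_of_mem_nhds hV)]
    rw [show (⟨y, mem_of_mem_nhds hV⟩ : V) = h ⟨x, mem_of_mem_nhds hU⟩ from Subtype.ext hxy.symm,
      h.symm_apply_apply]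
  obtain ⟨C, _, _, _, _, a, F, F1, F2, F3⟩ := core hK x (e y) (k ∘ e.symm) (e ∘ k') (interior U)
    isOpen_interior (e.symm ⁻¹' (interior V ∩ k ⁻¹' interior U))
    (e.symm.continuous.continuousAt.preimage_mem_nhds (by
      rw [e.symm_apply_apply]
      exact inter_mem (interior_mem_nhds.2 hV) ((k1.continuousAt hV).preimage_mem_nhds
        (k3 ▸ interior_mem_nhds.2 hU))))
    (fun z hz => ⟨(k1.continuousAt (mem_interior_iff_mem_nhds.1 hz.1)).comp
      e.symm.continuous.continuousAt, hz.2, by simp [k, k', interior_subset hz.1]⟩)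
    (fun w hw => ⟨e.continuous.continuousAt.comp (k2.continuousAt (mem_interior_iff_mem_nhds.1 hw)),
      fun h' => by
        have := e.injective h'
        simp only [k', dif_pos (interior_subset hw)] at this
        exact congrArg Subtype.val (h.injective (Subtype.ext (this.trans hxy.symm)))⟩) hx
  exact ⟨C, _, ‹_›, ‹_›, ‹_›, a, fun q => e.symm (F (e q.1, q.2)), by fun_prop, fun z => by simp [F2],
    fun z c hc h' => F3 _ c hc (e.symm_apply_eq.1 h')⟩

end Pool.Agent.Results.MP_a217de_gt.Poly
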